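import Pool.Agent.Q249.SF.Stm

set_option autoImplicit false

open MeasureTheory Real Set Topology
open Filter hiding ker

namespace Q102.SF

open Q249.SF

theorem ker_pos (u : ℝ) : 0 < ker u := Real.exp_pos _

theorem ker_cont : Continuous ker := by unfold ker; fun_prop

/-- moments of the kernel -/
noncomputable def Mom (k : ℕ) : ℝ := ∫ u, (1 + |u|) ^ k * ker u

theorem pow_ker_le (k : ℕ) (u : ℝ) : (1 + |u|) ^ k * ker u ≤
    (k.factorial : ℝ) * Real.exp (3 / 2) * Real.exp (-π * u ^ 2) := by
  have h1 : (1 + |u|) ^ k ≤ k.factorial * Real.exp (1 + |u|) := by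
    have h := Real.pow_div_factorial_le_exp (1 + |u|) (by positivity) k
    rw [div_le_iff₀ (by positivity)] at h
    linarith
  have h2 : 1 + |u| ≤ 3 / 2 + π * u ^ 2 := by
    have h3 : |u| ≤ (1 + u ^ 2) / 2 := by
      rw [← sq_abs u]
      nlinarith [sq_nonneg (|u| - 1)]
    have h4 := Real.pi_gt_three
    nlinarith [sq_nonneg u]
  have h3 : Real.exp (1 + |u|) ≤ Real.exp (3 / 2) * Real.exp (π * u ^ 2) := by
    rw [← Real.exp_add]
    exact Real.exp_le_exp.2 h2
  unfold ker
  calc (1 + |u|) ^ k * Real.exp (-2 * π * u ^ 2)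
      ≤ (k.factorial * (Real.exp (3 / 2) * Real.exp (π * u ^ 2))) * Real.exp (-2 * π * u ^ 2) := by
        apply mul_le_mul_of_nonneg_right _ (Real.exp_pos _).le
        exact h1.trans (mul_le_mul_of_nonneg_left h3 (by positivity))
    _ = k.factorial * Real.exp (3 / 2) * (Real.exp (π * u ^ 2) * Real.exp (-2 * π * u ^ 2)) := by
        ring
    _ = k.factorial * Real.exp (3 / 2) * Real.exp (-π * u ^ 2) := by
        rw [← Real.exp_add]
        congr 2
        ring

theorem mom_int (k : ℕ) : Integrable fun u : ℝ => (1 + |u|) ^ k * ker u := by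
  have h := (integrable_exp_neg_mul_sq Real.pi_pos).const_mul
    ((k.factorial : ℝ) * Real.exp (3 / 2))
  refine h.mono' ?_ (Eventually.of_forall fun u => ?_)
  · exact ((by fun_prop : Continuous fun u : ℝ => (1 + |u|) ^ k).mul ker_cont).aestronglyMeasurable
  · rw [Real.norm_of_nonneg (mul_nonneg (by positivity) (ker_pos u).le)]
    exact pow_ker_le k u

theorem mom_nonneg (k : ℕ) : 0 ≤ Mom k :=
  integral_nonneg fun u => mul_nonneg (by positivity) (ker_pos u).le

theorem mom_mono {k l : ℕ} (h : k ≤ l) : Mom k ≤ Mom l := by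
  apply integral_mono (mom_int k) (mom_int l)
  intro u
  apply mul_le_mul_of_nonneg_right _ (ker_pos u).le
  exact pow_le_pow_right₀ (by linarith [abs_nonneg u]) h

theorem slope_le {K : ℕ} {w : ℝ → ℝ} (hw : Slope K w) (y u : ℝ) :
    w (y + u) ≤ w 1 * (1 + |y|) ^ K * (1 + |u|) ^ K := by
  have h1 : |y + u| ≤ |(1 + |y|) * (1 + |u|) * 1| := by
    rw [abs_of_nonneg (show 0 ≤ (1 + |y|) * (1 + |u|) * 1 by positivity)]
    have h2 := abs_add_le y u
    nlinarith [abs_nonneg y, abs_nonneg u, mul_nonneg (abs_nonneg y) (abs_nonneg u)]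
  have h2 : 1 ≤ (1 + |y|) * (1 + |u|) := by
    nlinarith [abs_nonneg y, abs_nonneg u, mul_nonneg (abs_nonneg y) (abs_nonneg u)]
  calc w (y + u) ≤ w ((1 + |y|) * (1 + |u|) * 1) := hw.2.2.1 _ _ h1
    _ ≤ ((1 + |y|) * (1 + |u|)) ^ K * w 1 := hw.2.2.2 _ _ h2
    _ = w 1 * (1 + |y|) ^ K * (1 + |u|) ^ K := by rw [mul_pow]; ring

theorem sq_le_pow (u : ℝ) : u ^ 2 ≤ (1 + |u|) ^ 2 := by
  rw [← sq_abs u]
  nlinarith [abs_nonneg u]

theorem av_int {K : ℕ} {w : ℝ → ℝ} (hw : Slope K w) (y : ℝ) :
    Integrable fun u : ℝ => w (y + u) * ker u := by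
  have h := (mom_int K).const_mul (w 1 * (1 + |y|) ^ K)
  refine h.mono' ?_ (Eventually.of_forall fun u => ?_)
  · exact ((hw.1.comp (continuous_const.add continuous_id)).mul ker_cont).aestronglyMeasurable
  · rw [Real.norm_of_nonneg (mul_nonneg (hw.2.1 _) (ker_pos u).le)]
    calc w (y + u) * ker u ≤ w 1 * (1 + |y|) ^ K * (1 + |u|) ^ K * ker u :=
          mul_le_mul_of_nonneg_right (slope_le hw y u) (ker_pos u).le
      _ = w 1 * (1 + |y|) ^ K * ((1 + |u|) ^ K * ker u) := by ring

theorem av2_pt {K : ℕ} {w : ℝ → ℝ} (hw : Slope K w) (y u : ℝ) :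
    w (y + u) * (u ^ 2 * ker u) ≤ w 1 * (1 + |y|) ^ K * ((1 + |u|) ^ (K + 2) * ker u) := by
  have h1 : 0 ≤ w 1 := hw.2.1 1
  calc w (y + u) * (u ^ 2 * ker u)
      ≤ (w 1 * (1 + |y|) ^ K * (1 + |u|) ^ K) * ((1 + |u|) ^ 2 * ker u) := by
        apply mul_le_mul (slope_le hw y u)
        · exact mul_le_mul_of_nonneg_right (sq_le_pow u) (ker_pos u).le
        · exact mul_nonneg (sq_nonneg _) (ker_pos u).le
        · positivity
    _ = w 1 * (1 + |y|) ^ K * ((1 + |u|) ^ (K + 2) * ker u) := by rw [pow_add]; ring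

theorem av2_int {K : ℕ} {w : ℝ → ℝ} (hw : Slope K w) (y : ℝ) :
    Integrable fun u : ℝ => w (y + u) * (u ^ 2 * ker u) := by
  have h := (mom_int (K + 2)).const_mul (w 1 * (1 + |y|) ^ K)
  refine h.mono' ?_ (Eventually.of_forall fun u => ?_)
  · exact ((hw.1.comp (continuous_const.add continuous_id)).mul
      ((continuous_pow 2).mul ker_cont)).aestronglyMeasurable
  · rw [Real.norm_of_nonneg (mul_nonneg (hw.2.1 _) (mul_nonneg (sq_nonneg _) (ker_pos u).le))]
    exact av2_pt hw y u

theorem t_WGR : S_WGR := by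
  constructor
  · intro K
    refine ⟨Mom (K + 2), K, mom_nonneg _, fun w hw y => ⟨?_, ?_⟩⟩
    · unfold av
      calc ∫ u, w (y + u) * ker u ≤ ∫ u, w 1 * (1 + |y|) ^ K * ((1 + |u|) ^ K * ker u) := by
            apply integral_mono (av_int hw y) ((mom_int K).const_mul _)
            intro u
            calc w (y + u) * ker u ≤ w 1 * (1 + |y|) ^ K * (1 + |u|) ^ K * ker u :=
                  mul_le_mul_of_nonneg_right (slope_le hw y u) (ker_pos u).le
              _ = w 1 * (1 + |y|) ^ K * ((1 + |u|) ^ K * ker u) := by ring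
        _ = w 1 * (1 + |y|) ^ K * Mom K := by rw [integral_const_mul]; rfl
        _ ≤ w 1 * (1 + |y|) ^ K * Mom (K + 2) := by
            apply mul_le_mul_of_nonneg_left (mom_mono (by omega))
            have := hw.2.1 1
            positivity
        _ = Mom (K + 2) * w 1 * (1 + |y|) ^ K := by ring
    · unfold av2
      calc ∫ u, w (y + u) * (u ^ 2 * ker u)
          ≤ ∫ u, w 1 * (1 + |y|) ^ K * ((1 + |u|) ^ (K + 2) * ker u) := by
            apply integral_mono (av2_int hw y) ((mom_int (K + 2)).const_mul _)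
            exact fun u => av2_pt hw y u
        _ = w 1 * (1 + |y|) ^ K * Mom (K + 2) := by rw [integral_const_mul]; rfl
        _ = Mom (K + 2) * w 1 * (1 + |y|) ^ K := by ring
  · intro K w hw
    have hw1 : 0 ≤ w 1 := hw.2.1 1
    have hev : ∀ y0 : ℝ, ∀ᶠ y in 𝓝 y0, 1 + |y| ≤ 2 + |y0| := by
      intro y0
      have h : ∀ᶠ y in 𝓝 y0, |y| < 1 + |y0| :=
        (continuous_abs.tendsto y0).eventually_lt_const (by linarith)
      filter_upwards [h] with y hy
      linarith
    constructor
    · rw [continuous_iff_continuousAt]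
      intro y0
      unfold av
      apply MeasureTheory.continuousAt_of_dominated
        (bound := fun u => w 1 * (2 + |y0|) ^ K * ((1 + |u|) ^ K * ker u))
      · exact Eventually.of_forall fun y => (av_int hw y).aestronglyMeasurable
      · filter_upwards [hev y0] with y hy
        refine Eventually.of_forall fun u => ?_
        rw [Real.norm_of_nonneg (mul_nonneg (hw.2.1 _) (ker_pos u).le)]
        calc w (y + u) * ker u ≤ w 1 * (1 + |y|) ^ K * (1 + |u|) ^ K * ker u :=
              mul_le_mul_of_nonneg_right (slope_le hw y u) (ker_pos u).le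
          _ = w 1 * (1 + |y|) ^ K * ((1 + |u|) ^ K * ker u) := by ring
          _ ≤ w 1 * (2 + |y0|) ^ K * ((1 + |u|) ^ K * ker u) := by
              apply mul_le_mul_of_nonneg_right
              · exact mul_le_mul_of_nonneg_left (pow_le_pow_left₀ (by positivity) hy K) hw1
              · exact mul_nonneg (by positivity) (ker_pos u).le
      · exact (mom_int K).const_mul _
      · refine Eventually.of_forall fun u => ?_
        exact ((hw.1.comp (continuous_id.add continuous_const)).mul continuous_const).continuousAt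
    · rw [continuous_iff_continuousAt]
      intro y0
      unfold av2
      apply MeasureTheory.continuousAt_of_dominated
        (bound := fun u => w 1 * (2 + |y0|) ^ K * ((1 + |u|) ^ (K + 2) * ker u))
      · exact Eventually.of_forall fun y => (av2_int hw y).aestronglyMeasurable
      · filter_upwards [hev y0] with y hy
        refine Eventually.of_forall fun u => ?_
        rw [Real.norm_of_nonneg (mul_nonneg (hw.2.1 _) (mul_nonneg (sq_nonneg _) (ker_pos u).le))]
        refine (av2_pt hw y u).trans ?_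
        apply mul_le_mul_of_nonneg_right
        · exact mul_le_mul_of_nonneg_left (pow_le_pow_left₀ (by positivity) hy K) hw1
        · exact mul_nonneg (by positivity) (ker_pos u).le
      · exact (mom_int (K + 2)).const_mul _
      · refine Eventually.of_forall fun u => ?_
        exact ((hw.1.comp (continuous_id.add continuous_const)).mul continuous_const).continuousAt

theorem pow_le_one_add (K : ℕ) (t : ℝ) (ht : 0 ≤ t) :
    (1 + t) ^ K ≤ 1 + K * t * (1 + t) ^ K := by
  induction K with
  | zero => simp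
  | succ K ih =>
    have h1 : (1 : ℝ) ≤ 1 + t := by linarith
    have h2 : 0 ≤ (1 + t) ^ K := by positivity
    have h3 : (1 + t) ^ K ≤ (1 + t) ^ (K + 1) := pow_le_pow_right₀ h1 (Nat.le_succ K)
    calc (1 + t) ^ (K + 1) = (1 + t) ^ K + t * (1 + t) ^ K := by ring
      _ ≤ (1 + K * t * (1 + t) ^ K) + t * (1 + t) ^ K := by linarith
      _ = 1 + ((K : ℝ) + 1) * t * (1 + t) ^ K := by ring
      _ ≤ 1 + ((K : ℝ) + 1) * t * (1 + t) ^ (K + 1) := by
          have : 0 ≤ ((K : ℝ) + 1) * t := by positivity
          have := mul_le_mul_of_nonneg_left h3 this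
          linarith
      _ = 1 + ((K + 1 : ℕ) : ℝ) * t * (1 + t) ^ (K + 1) := by push_cast; ring

theorem slope_up {K : ℕ} {w : ℝ → ℝ} (hw : Slope K w) (y u : ℝ) (hy : 1 ≤ |y|) :
    w (y + u) ≤ (1 + |u| / |y|) ^ K * w y := by
  have hy0 : 0 < |y| := by linarith
  have h1 : |y + u| ≤ |(1 + |u| / |y|) * y| := by
    rw [abs_mul, abs_of_nonneg (show 0 ≤ 1 + |u| / |y| by positivity), add_mul,
      div_mul_cancel₀ _ hy0.ne', one_mul]
    exact abs_add_le y u
  exact (hw.2.2.1 _ _ h1).trans (hw.2.2.2 _ _ (by have : 0 ≤ |u| / |y| := by positivity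
                                                  linarith))

theorem slope_low {K : ℕ} {w : ℝ → ℝ} (hw : Slope K w) (y u : ℝ) (hy : 1 ≤ |y|) :
    (1 - (K + 1) * (|u| / |y|)) * w y ≤ w (y + u) := by
  have hy0 : 0 < |y| := by linarith
  have ht : 0 ≤ |u| / |y| := by positivity
  set t := |u| / |y| with htdef
  have hwy := hw.2.1 y
  have hK : (0 : ℝ) ≤ K := Nat.cast_nonneg K
  rcases lt_or_ge t 1 with h | h
  · have h1 : 0 < 1 - t := by linarith
    have h2 : |(1 - t) * y| ≤ |y + u| := by
      rw [abs_mul, abs_of_pos h1, sub_mul, one_mul, htdef, div_mul_cancel₀ _ hy0.ne']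
      have := abs_sub_abs_le_abs_sub y (-u)
      rw [abs_neg, sub_neg_eq_add] at this
      exact this
    have h3 : w y ≤ (1 / (1 - t)) ^ K * w ((1 - t) * y) := by
      have h4 := hw.2.2.2 (1 / (1 - t)) ((1 - t) * y) (by
        rw [le_div_iff₀ h1]; linarith)
      rwa [← mul_assoc, one_div, inv_mul_cancel₀ h1.ne', one_mul, ← one_div] at h4
    have h5 : (1 - t) ^ K * w y ≤ w ((1 - t) * y) := by
      calc (1 - t) ^ K * w y ≤ (1 - t) ^ K * ((1 / (1 - t)) ^ K * w ((1 - t) * y)) :=
            mul_le_mul_of_nonneg_left h3 (by positivity)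
        _ = w ((1 - t) * y) := by
            rw [← mul_assoc, ← mul_pow, mul_one_div_cancel h1.ne', one_pow, one_mul]
    have h6 : 1 + (K : ℝ) * (-t) ≤ (1 + (-t)) ^ K := one_add_mul_le_pow (by linarith) K
    calc (1 - (K + 1) * t) * w y ≤ (1 + (K : ℝ) * (-t)) * w y := by
          apply mul_le_mul_of_nonneg_right _ hwy
          linarith
      _ ≤ (1 + (-t)) ^ K * w y := mul_le_mul_of_nonneg_right h6 hwy
      _ = (1 - t) ^ K * w y := by rw [← sub_eq_add_neg]
      _ ≤ w ((1 - t) * y) := h5
      _ ≤ w (y + u) := hw.2.2.1 _ _ h2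
  · have h1 : (1 - (K + 1) * t) ≤ 0 := by nlinarith
    exact (mul_nonpos_of_nonpos_of_nonneg h1 hwy).trans (hw.2.1 _)

theorem ker_int : Integrable ker := by
  have h := mom_int 0
  simpa using h

theorem abs_ker_int : Integrable fun u : ℝ => |u| * ker u := by
  refine (mom_int 1).mono' ?_ (Eventually.of_forall fun u => ?_)
  · exact (continuous_abs.mul ker_cont).aestronglyMeasurable
  · rw [Real.norm_of_nonneg (mul_nonneg (abs_nonneg _) (ker_pos u).le)]
    apply mul_le_mul_of_nonneg_right _ (ker_pos u).le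
    rw [pow_one]; linarith

theorem t_WAV : S_WAV := by
  intro K
  have hK : (0 : ℝ) ≤ K := Nat.cast_nonneg K
  have hM := mom_nonneg (K + 2)
  refine ⟨(K + 1) * Mom (K + 2), by positivity, fun w hw y hy => ⟨?_, ?_, ?_⟩⟩
  · have hy0 : 0 < |y| := by linarith
    have hwy := hw.2.1 y
    unfold av
    calc ∫ u, w (y + u) * ker u
        ≤ ∫ u, w y * (ker u + (K / |y|) * ((1 + |u|) ^ (K + 2) * ker u)) := by
          apply integral_mono (av_int hw y)
            ((ker_int.add ((mom_int (K + 2)).const_mul _)).const_mul _)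
          intro u
          have ht : 0 ≤ |u| / |y| := by positivity
          have ht1 : |u| / |y| ≤ |u| := div_le_self (abs_nonneg _) hy
          have h1 := slope_up hw y u hy
          have h2 := pow_le_one_add K (|u| / |y|) ht
          have h3 : (1 + |u| / |y|) ^ K ≤ (1 + |u|) ^ K :=
            pow_le_pow_left₀ (by positivity) (by linarith) K
          have h4 : K * (|u| / |y|) * (1 + |u| / |y|) ^ K ≤ (K / |y|) * (1 + |u|) ^ (K + 2) := by
            calc K * (|u| / |y|) * (1 + |u| / |y|) ^ K
                ≤ K * (|u| / |y|) * (1 + |u|) ^ K := mul_le_mul_of_nonneg_left h3 (by positivity)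
              _ = (K / |y|) * (|u| * (1 + |u|) ^ K) := by ring
              _ ≤ (K / |y|) * (1 + |u|) ^ (K + 2) := by
                  apply mul_le_mul_of_nonneg_left _ (by positivity)
                  rw [pow_add, mul_comm]
                  apply mul_le_mul_of_nonneg_left _ (by positivity)
                  nlinarith [abs_nonneg u]
          have h5 : w (y + u) ≤ (1 + (K / |y|) * (1 + |u|) ^ (K + 2)) * w y :=
            h1.trans (mul_le_mul_of_nonneg_right (h2.trans (by linarith)) hwy)
          calc w (y + u) * ker u ≤ (1 + (K / |y|) * (1 + |u|) ^ (K + 2)) * w y * ker u :=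
                mul_le_mul_of_nonneg_right h5 (ker_pos u).le
            _ = w y * (ker u + (K / |y|) * ((1 + |u|) ^ (K + 2) * ker u)) := by ring
      _ = w y * (k0 + (K / |y|) * Mom (K + 2)) := by
          rw [integral_const_mul, integral_add ker_int ((mom_int (K + 2)).const_mul _),
            integral_const_mul]
          rfl
      _ ≤ (k0 + (K + 1) * Mom (K + 2) / |y|) * w y := by
          rw [mul_comm]
          apply mul_le_mul_of_nonneg_right _ hwy
          have h1 : (K / |y|) * Mom (K + 2) = K * Mom (K + 2) / |y| := by ring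
          rw [h1]
          have h2 : K * Mom (K + 2) / |y| ≤ (K + 1) * Mom (K + 2) / |y| := by
            apply div_le_div_of_nonneg_right _ hy0.le
            nlinarith
          linarith
  · have hy0 : 0 < |y| := by linarith
    have hwy := hw.2.1 y
    have hI : Integrable fun u : ℝ => w y * (ker u - ((K + 1) / |y|) * (|u| * ker u)) :=
      (ker_int.sub (abs_ker_int.const_mul _)).const_mul _
    have h1 : ∫ u, w y * (ker u - ((K + 1) / |y|) * (|u| * ker u)) ≤ ∫ u, w (y + u) * ker u := by
      apply integral_mono hI (av_int hw y)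
      intro u
      have h2 := mul_le_mul_of_nonneg_right (slope_low hw y u hy) (ker_pos u).le
      calc w y * (ker u - ((K + 1) / |y|) * (|u| * ker u))
          = (1 - (K + 1) * (|u| / |y|)) * w y * ker u := by ring
        _ ≤ w (y + u) * ker u := h2
    have h3 : ∫ u, w y * (ker u - ((K + 1) / |y|) * (|u| * ker u)) =
        w y * (k0 - ((K + 1) / |y|) * ∫ u, |u| * ker u) := by
      rw [integral_const_mul, integral_sub ker_int (abs_ker_int.const_mul _), integral_const_mul]
      rfl
    have h4 : ∫ u, |u| * ker u ≤ Mom (K + 2) := by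
      apply integral_mono abs_ker_int (mom_int (K + 2))
      intro u
      apply mul_le_mul_of_nonneg_right _ (ker_pos u).le
      calc |u| ≤ (1 + |u|) ^ 1 := by rw [pow_one]; linarith
        _ ≤ (1 + |u|) ^ (K + 2) := pow_le_pow_right₀ (by linarith [abs_nonneg u]) (by omega)
    unfold av
    rw [h3] at h1
    refine le_trans ?_ h1
    rw [mul_comm]
    apply mul_le_mul_of_nonneg_left _ hwy
    have h5 : ((K : ℝ) + 1) / |y| * ∫ u, |u| * ker u ≤ (K + 1) / |y| * Mom (K + 2) :=
      mul_le_mul_of_nonneg_left h4 (by positivity)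
    have h6 : ((K : ℝ) + 1) / |y| * Mom (K + 2) = (K + 1) * Mom (K + 2) / |y| := by ring
    linarith
  · have hy0 : 0 < |y| := by linarith
    have hwy := hw.2.1 y
    unfold av2
    calc ∫ u, w (y + u) * (u ^ 2 * ker u)
        ≤ ∫ u, w y * ((1 + |u|) ^ (K + 2) * ker u) := by
          apply integral_mono (av2_int hw y) ((mom_int (K + 2)).const_mul _)
          intro u
          have ht1 : |u| / |y| ≤ |u| := div_le_self (abs_nonneg _) hy
          have h1 := slope_up hw y u hy
          have h3 : (1 + |u| / |y|) ^ K ≤ (1 + |u|) ^ K :=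
            pow_le_pow_left₀ (by positivity) (by linarith) K
          calc w (y + u) * (u ^ 2 * ker u)
              ≤ ((1 + |u|) ^ K * w y) * ((1 + |u|) ^ 2 * ker u) := by
                apply mul_le_mul
                · exact h1.trans (mul_le_mul_of_nonneg_right h3 hwy)
                · exact mul_le_mul_of_nonneg_right (sq_le_pow u) (ker_pos u).le
                · exact mul_nonneg (sq_nonneg _) (ker_pos u).le
                · positivity
            _ = w y * ((1 + |u|) ^ (K + 2) * ker u) := by rw [pow_add]; ring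
      _ = w y * Mom (K + 2) := by rw [integral_const_mul]; rfl
      _ ≤ (K + 1) * Mom (K + 2) * w y := by nlinarith [mul_nonneg (mul_nonneg hK hM) hwy]

end Q102.SF
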