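import Pool.Agent.Q249.SF.Stm

set_option autoImplicit false

open MeasureTheory Real Set Filter Topology

namespace Q102.SF

open Q249.SF

theorem t_GRO : S_GRO := by
  intro γ θ x hγ hθ hθ1 hN
  obtain ⟨hmono, htop, hbot, T, hT⟩ := hN
  obtain ⟨n1, hn1⟩ := (Filter.eventually_atTop.1 (htop.eventually_ge_atTop (max T 1)))
  obtain ⟨n0, hn0⟩ := (Filter.eventually_atBot.1 (hbot.eventually_le_atBot (-(max T 1))))
  have gap : ∀ n, max T 1 ≤ |x n| → x (n + 1) - x n ≤ 1 := by
    intro n hn
    have h1 := hT n ((le_max_left _ _).trans hn)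
    have h2 : (1 : ℝ) ≤ |x n| := (le_max_right _ _).trans hn
    have h3 : (1 : ℝ) ≤ |x n| ^ γ := Real.one_le_rpow h2 hγ.le
    have h4 : 0 ≤ x (n + 1) - x n := sub_nonneg.2 (hmono (by omega))
    have h5 : x (n + 1) - x n ≤ |x n| ^ γ * (x (n + 1) - x n) := le_mul_of_one_le_left h4 h3
    linarith
  have right : ∀ k : ℕ, x (n1 + k) ≤ x n1 + k := by
    intro k
    induction k with
    | zero => simp
    | succ k ih =>
      have h1 : max T 1 ≤ x (n1 + k) := hn1 (n1 + k) (by omega)
      have h2 := gap (n1 + k) (h1.trans (le_abs_self _))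
      have h3 : n1 + ((k + 1 : ℕ) : ℤ) = n1 + k + 1 := by push_cast; ring
      rw [h3]
      push_cast
      linarith
  have left : ∀ k : ℕ, x n0 - k ≤ x (n0 - k) := by
    intro k
    induction k with
    | zero => simp
    | succ k ih =>
      have h0 : n0 - ((k + 1 : ℕ) : ℤ) + 1 = n0 - k := by push_cast; ring
      have h1 : x (n0 - ((k + 1 : ℕ) : ℤ)) ≤ -(max T 1) := hn0 _ (by omega)
      have h2 := gap (n0 - ((k + 1 : ℕ) : ℤ)) (by
        rw [abs_of_nonpos]
        · linarith
        · have : (1 : ℝ) ≤ max T 1 := le_max_right _ _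
          linarith)
      rw [h0] at h2
      push_cast at h2 ⊢
      linarith
  refine ⟨1 + |x n0| + |x n1| + |(n0 : ℝ)| + |(n1 : ℝ)|, ?_, fun n => ?_⟩
  · have h1 := abs_nonneg (x n0)
    have h2 := abs_nonneg (x n1)
    have h3 := abs_nonneg (n0 : ℝ)
    have h4 := abs_nonneg (n1 : ℝ)
    linarith
  · have a1 := abs_nonneg (x n0)
    have a2 := abs_nonneg (x n1)
    have a3 := abs_nonneg (n0 : ℝ)
    have a4 := abs_nonneg (n1 : ℝ)
    have a5 := abs_nonneg (n : ℝ)
    have key : |x n| ≤ |x n0| + |x n1| + |(n0 : ℝ)| + |(n1 : ℝ)| + |(n : ℝ)| := by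
      rcases le_total n1 n with h | h
      · obtain ⟨k, hk⟩ := Int.eq_ofNat_of_zero_le (show 0 ≤ n - n1 by omega)
        obtain rfl : n = n1 + k := by omega
        have h1 := right k
        have h2 : 0 ≤ x (n1 + k) := by
          have h3 := hn1 (n1 + k) h
          have h4 : (1 : ℝ) ≤ max T 1 := le_max_right _ _
          linarith
        rw [abs_of_nonneg h2]
        have h3 : (k : ℝ) = ((n1 + k : ℤ) : ℝ) - n1 := by push_cast; ring
        have h4 := le_abs_self (((n1 + k : ℤ) : ℝ))
        have h5 := neg_abs_le (n1 : ℝ)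
        have h6 := le_abs_self (x n1)
        linarith
      · rcases le_total n n0 with h' | h'
        · obtain ⟨k, hk⟩ := Int.eq_ofNat_of_zero_le (show 0 ≤ n0 - n by omega)
          obtain rfl : n = n0 - k := by omega
          have h1 := left k
          have h2 : x (n0 - k) ≤ 0 := by
            have h3 := hn0 (n0 - k) h'
            have h4 : (1 : ℝ) ≤ max T 1 := le_max_right _ _
            linarith
          rw [abs_of_nonpos h2]
          have h3 : (k : ℝ) = n0 - ((n0 - k : ℤ) : ℝ) := by push_cast; ring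
          have h4 := neg_abs_le (((n0 - k : ℤ) : ℝ))
          have h5 := le_abs_self (n0 : ℝ)
          have h6 := neg_abs_le (x n0)
          linarith
        · have h1 : x n ≤ x n1 := hmono h
          have h2 : x n0 ≤ x n := hmono h'
          rw [abs_le]
          constructor
          · have := neg_abs_le (x n0)
            linarith
          · have := le_abs_self (x n1)
            linarith
    calc |x n| ≤ |x n0| + |x n1| + |(n0 : ℝ)| + |(n1 : ℝ)| + |(n : ℝ)| := key
      _ ≤ (1 + |x n0| + |x n1| + |(n0 : ℝ)| + |(n1 : ℝ)|) * (1 + |(n : ℝ)|) := by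
          have e : (1 + |x n0| + |x n1| + |(n0 : ℝ)| + |(n1 : ℝ)|) * (1 + |(n : ℝ)|) =
            |x n0| + |x n1| + |(n0 : ℝ)| + |(n1 : ℝ)| + |(n : ℝ)| + (1 + (|x n0| + |x n1| +
              |(n0 : ℝ)| + |(n1 : ℝ)|) * |(n : ℝ)|) := by ring
          rw [e]
          have : 0 ≤ 1 + (|x n0| + |x n1| + |(n0 : ℝ)| + |(n1 : ℝ)|) * |(n : ℝ)| := by positivity
          linarith

end Q102.SF
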