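import Pool.Agent.Q249.SF.Stm
import Pool.Agent.Helper787.PathA

set_option autoImplicit false

open MeasureTheory Real Set Filter Topology

namespace Q102.SF

open Q249.SF

theorem wir_zero (g g' : ℝ → ℝ) (hg : ∀ x, HasDerivAt g (g' x) x) (hg' : Continuous g')
    (a b : ℝ) (hab : a < b) (ha : g a = 0) (hb : g b = 0) :
    ∫ x in a..b, g x ^ 2 ≤ ((b - a) / π) ^ 2 * ∫ x in a..b, g' x ^ 2 := by
  have hpi := Real.pi_pos
  set c : ℝ := (b - a) / (2 * π) with hc
  have hc0 : 0 < c := by rw [hc]; apply div_pos <;> linarith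
  have hcb : a + c * (2 * π) = b := by rw [hc]; field_simp; ring
  have h1 := Pool.Agent.Helper787.PathGrowth.wirtinger_zero (f := fun x => g (a + c * x))
    (f' := fun x => c * g' (a + c * x)) (by
      intro x
      have h2 : HasDerivAt (fun x : ℝ => a + c * x) c x := by
        simpa using ((hasDerivAt_id x).const_mul c).const_add a
      have h3 := (hg (a + c * x)).comp x h2
      rw [mul_comm c]
      exact h3)
    (continuous_const.mul (hg'.comp (by fun_prop))) (by simpa using ha) (by
      simp only [hcb]; exact hb)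
  have e1 : ∫ x in (0 : ℝ)..(2 * π), g (a + c * x) ^ 2 = c⁻¹ * ∫ x in a..b, g x ^ 2 := by
    have h := intervalIntegral.integral_comp_add_mul (a := 0) (b := 2 * π) (fun x => g x ^ 2)
      hc0.ne' a
    rw [mul_zero, add_zero, hcb, smul_eq_mul] at h
    exact h
  have e2 : ∫ x in (0 : ℝ)..(2 * π), (c * g' (a + c * x)) ^ 2 =
      c ^ 2 * (c⁻¹ * ∫ x in a..b, g' x ^ 2) := by
    have h := intervalIntegral.integral_comp_add_mul (a := 0) (b := 2 * π) (fun x => g' x ^ 2)
      hc0.ne' a
    rw [mul_zero, add_zero, hcb, smul_eq_mul] at h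
    rw [← h, ← intervalIntegral.integral_const_mul]
    congr 1
    ext x
    ring
  rw [e1, e2] at h1
  have h2 : ∫ x in a..b, g x ^ 2 ≤ 4 * c ^ 2 * ∫ x in a..b, g' x ^ 2 := by
    have h3 := mul_le_mul_of_nonneg_left h1 (show 0 ≤ 4 * c by positivity)
    have e3 : 4 * c * (1 / 4 * (c⁻¹ * ∫ x in a..b, g x ^ 2)) = ∫ x in a..b, g x ^ 2 := by
      field_simp
    have e4 : 4 * c * (c ^ 2 * (c⁻¹ * ∫ x in a..b, g' x ^ 2)) =
        4 * c ^ 2 * ∫ x in a..b, g' x ^ 2 := by
      field_simp
    rw [e3, e4] at h3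
    exact h3
  have e5 : ((b - a) / π) ^ 2 = 4 * c ^ 2 := by
    rw [hc]; field_simp; ring
  rw [e5]
  exact h2

theorem wir_real (f f' : ℝ → ℝ) (hf : ∀ x, HasDerivAt f (f' x) x) (hf' : Continuous f')
    (a b δ : ℝ) (hab : a < b) (hδ : 0 < δ) :
    ∫ x in a..b, f x ^ 2 ≤ (1 + δ) * ((b - a) / π) ^ 2 * (∫ x in a..b, f' x ^ 2) +
      (1 + 1 / δ) * (b - a) * (f a ^ 2 + f b ^ 2) := by
  have hba : 0 < b - a := by linarith
  set m : ℝ := (f b - f a) / (b - a) with hm
  have hmb : m * (b - a) = f b - f a := by rw [hm]; field_simp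
  have hcf : Continuous f := continuous_iff_continuousAt.2 fun x => (hf x).continuousAt
  have hu := wir_zero (fun x => f x - (f a + (x - a) * m)) (fun x => f' x - m) (by
      intro x
      have h1 : HasDerivAt (fun x : ℝ => f a + (x - a) * m) m x := by
        simpa using (((hasDerivAt_id x).sub_const a).mul_const m).const_add (f a)
      exact (hf x).sub h1) (hf'.sub continuous_const) a b hab (by simp) (by
      linarith [mul_comm m (b - a)])
  have h1 : ∫ x in a..b, (f' x - m) ^ 2 ≤ ∫ x in a..b, f' x ^ 2 := by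
    have e0 : ∫ x in a..b, f' x = f b - f a :=
      intervalIntegral.integral_eq_sub_of_hasDerivAt (fun x _ => hf x)
        (hf'.intervalIntegrable _ _)
    have e1 : ∫ x in a..b, (f' x - m) ^ 2 =
        (∫ x in a..b, f' x ^ 2) - (2 * m * ∫ x in a..b, f' x) + (b - a) * m ^ 2 := by
      have e2 : ∀ x, (f' x - m) ^ 2 = f' x ^ 2 - 2 * m * f' x + m ^ 2 := fun x => by ring
      simp only [e2]
      rw [intervalIntegral.integral_add, intervalIntegral.integral_sub,
        intervalIntegral.integral_const_mul, intervalIntegral.integral_const, smul_eq_mul]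
      · exact (hf'.pow 2).intervalIntegrable _ _
      · exact (continuous_const.mul hf').intervalIntegrable _ _
      · exact ((hf'.pow 2).sub (continuous_const.mul hf')).intervalIntegrable _ _
      · exact continuous_const.intervalIntegrable _ _
    rw [e1, e0, ← hmb]
    nlinarith [sq_nonneg m, mul_nonneg hba.le (sq_nonneg m)]
  have h2 : ∫ x in a..b, f x ^ 2 ≤ ∫ x in a..b, ((1 + δ) * (f x - (f a + (x - a) * m)) ^ 2 +
      (1 + 1 / δ) * (f a ^ 2 + f b ^ 2)) := by
    apply intervalIntegral.integral_mono_on hab.le ((hcf.pow 2).intervalIntegrable _ _)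
    · apply Continuous.intervalIntegrable
      fun_prop
    · intro x hx
      change f x ^ 2 ≤ (1 + δ) * (f x - (f a + (x - a) * m)) ^ 2 + (1 + 1 / δ) * (f a ^ 2 + f b ^ 2)
      set l := f a + (x - a) * m with hl
      have hl2 : l ^ 2 ≤ f a ^ 2 + f b ^ 2 := by
        set s := (x - a) / (b - a) with hs
        have hs0 : 0 ≤ s := div_nonneg (by linarith [hx.1]) hba.le
        have hs1 : s ≤ 1 := by rw [hs, div_le_one hba]; linarith [hx.2]
        have e3 : l = (1 - s) * f a + s * f b := by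
          have e4 : (x - a) * m = s * (f b - f a) := by rw [hs, hm]; ring
          rw [hl, e4]; ring
        rw [e3]
        nlinarith [mul_nonneg hs0 (sub_nonneg.2 hs1), sq_nonneg (f a - f b), sq_nonneg (f a),
          sq_nonneg (f b), mul_nonneg (mul_nonneg hs0 (sub_nonneg.2 hs1)) (sq_nonneg (f a - f b)),
          mul_nonneg hs0 (sq_nonneg (f a)), mul_nonneg (sub_nonneg.2 hs1) (sq_nonneg (f b))]
      have h3 : f x ^ 2 ≤ (1 + δ) * (f x - l) ^ 2 + (1 + 1 / δ) * l ^ 2 := by
        have e5 : (1 + δ) * (f x - l) ^ 2 + (1 + 1 / δ) * l ^ 2 - f x ^ 2 =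
            (1 / δ) * (δ * (f x - l) - l) ^ 2 := by
          field_simp
          ring
        have : 0 ≤ (1 / δ) * (δ * (f x - l) - l) ^ 2 := by positivity
        linarith
      have h4 : (1 + 1 / δ) * l ^ 2 ≤ (1 + 1 / δ) * (f a ^ 2 + f b ^ 2) :=
        mul_le_mul_of_nonneg_left hl2 (by positivity)
      linarith
  have h5 : ∫ x in a..b, ((1 + δ) * (f x - (f a + (x - a) * m)) ^ 2 +
      (1 + 1 / δ) * (f a ^ 2 + f b ^ 2)) =
      (1 + δ) * (∫ x in a..b, (f x - (f a + (x - a) * m)) ^ 2) +
      (b - a) * ((1 + 1 / δ) * (f a ^ 2 + f b ^ 2)) := by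
    rw [intervalIntegral.integral_add, intervalIntegral.integral_const_mul,
      intervalIntegral.integral_const, smul_eq_mul]
    · apply Continuous.intervalIntegrable
      fun_prop
    · exact continuous_const.intervalIntegrable _ _
  rw [h5] at h2
  have h6 : (1 + δ) * (∫ x in a..b, (f x - (f a + (x - a) * m)) ^ 2) ≤
      (1 + δ) * (((b - a) / π) ^ 2 * ∫ x in a..b, f' x ^ 2) := by
    apply mul_le_mul_of_nonneg_left _ (by linarith)
    exact hu.trans (mul_le_mul_of_nonneg_left h1 (sq_nonneg _))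
  calc ∫ x in a..b, f x ^ 2 ≤ _ := h2
    _ ≤ (1 + δ) * (((b - a) / π) ^ 2 * ∫ x in a..b, f' x ^ 2) +
      (b - a) * ((1 + 1 / δ) * (f a ^ 2 + f b ^ 2)) := by linarith
    _ = _ := by ring

theorem t_WIR : S_WIR := by
  intro f f' hf hf' a b δ hab hδ
  rcases eq_or_lt_of_le hab with rfl | hab
  · simp
  have hcf : Continuous f := continuous_iff_continuousAt.2 fun x => (hf x).continuousAt
  have hr := wir_real (fun x => (f x).re) (fun x => (f' x).re)
    (fun x => (Complex.reCLM.hasFDerivAt).comp_hasDerivAt x (hf x))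
    (Complex.continuous_re.comp hf') a b δ hab hδ
  have hi := wir_real (fun x => (f x).im) (fun x => (f' x).im)
    (fun x => (Complex.imCLM.hasFDerivAt).comp_hasDerivAt x (hf x))
    (Complex.continuous_im.comp hf') a b δ hab hδ
  have hn : ∀ z : ℂ, ‖z‖ ^ 2 = z.re ^ 2 + z.im ^ 2 := by
    intro z
    rw [Complex.sq_norm, Complex.normSq_apply]
    ring
  have e1 : ∫ x in a..b, ‖f x‖ ^ 2 = (∫ x in a..b, (f x).re ^ 2) + ∫ x in a..b, (f x).im ^ 2 := by
    rw [← intervalIntegral.integral_add]
    · simp only [hn]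
    · exact ((Complex.continuous_re.comp hcf).pow 2).intervalIntegrable _ _
    · exact ((Complex.continuous_im.comp hcf).pow 2).intervalIntegrable _ _
  have e2 : ∫ x in a..b, ‖f' x‖ ^ 2 = (∫ x in a..b, (f' x).re ^ 2) + ∫ x in a..b, (f' x).im ^ 2 := by
    rw [← intervalIntegral.integral_add]
    · simp only [hn]
    · exact ((Complex.continuous_re.comp hf').pow 2).intervalIntegrable _ _
    · exact ((Complex.continuous_im.comp hf').pow 2).intervalIntegrable _ _
  rw [e1, e2, hn (f a), hn (f b)]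
  calc _ ≤ _ := add_le_add hr hi
    _ = _ := by ring

end Q102.SF
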